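import Pool.Agent.U141.CF.Core2
import Pool.Agent.N801.CF.Main1

/-!
# Cubic fourfolds: the Hodge classes with an admissible discriminant
-/

set_option autoImplicit false

namespace Pool.Agent.U141.CF

open Finset Pool.Agent.N801.CF Pool.Agent.Y95.Q Pool.Agent.Y95.Q.H4 Pool.Agent.X328.CF

variable {X : CubicFourfold} {H : H4 X}

/-- a Hodge class with the local conditions gives an admissible class -/
theorem adm_of_good (hH : H.IsCohomology) {v : Fin 23 → ℤ} (hv : H.IsHodge v)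
    (h0 : 0 < H.disc v) (hg : ∀ p : ℕ, p.Prime → p % 3 ≠ 1 → Good p (H.disc v / 2)) :
    ∃ (w : Fin 23 → ℤ) (m l : ℤ), H.IsHodge w ∧ H.Saturated w ∧ Admissible (H.disc w) ∧
      v = m • w + l • H.h := by
  obtain ⟨w, m, l, hm, hsat, hw⟩ := hH.exists_saturated _ h0
  have hwH : H.IsHodge w := by
    refine H.isHodge_of_smul hm.ne' ?_
    have h1 : m • w = v - l • H.h := by
      rw [hw]
      abel
    rw [h1]
    exact H.isHodge_sub hv (H.isHodge_smul _ hH.h_hodge)
  have hd : H.disc v = m ^ 2 * H.disc w := by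
    rw [hw, hH.disc_comb]
  refine ⟨w, m, l, hwH, hsat, ?_, hw⟩
  have hw0 : 0 < H.disc w := by
    rw [hd] at h0
    exact (mul_pos_iff_of_pos_left (by positivity)).1 h0
  have h2 := disc_half hH w
  have h1 : H.disc v / 2 = m ^ 2 * (H.disc w / 2) := by
    have h3 := disc_half hH v
    have h4 : 2 * (H.disc v / 2) = 2 * (m ^ 2 * (H.disc w / 2)) := by
      rw [← h3, hd]
      conv_lhs => rw [h2]
      ring
    omega
  have hgw : ∀ p : ℕ, p.Prime → p % 3 ≠ 1 → Good p (H.disc w / 2) := by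
    intro p hp h3
    have := hg p hp h3
    rw [h1] at this
    exact this.of_mul hp
  refine ⟨hH.six_lt hwH hw0, ?_, ?_, ?_⟩
  · have := (hgw 2 Nat.prime_two (by norm_num)).2 (by norm_num)
    push_cast at this
    omega
  · have := (hgw 3 Nat.prime_three (by norm_num)).1 rfl
    omega
  · intro p hp hp2 hpd h3
    have hpp := Nat.prime_iff_prime_int.1 hp
    have hp3 : p ≠ 3 := by
      rintro rfl
      norm_num at h3
    have h4 := (hgw p hp (by omega)).2 hp3
    rw [h2] at hpd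
    rcases hpp.dvd_or_dvd hpd with h | h
    · have : p ∣ 2 := by exact_mod_cast h
      exact hp2 ((Nat.prime_dvd_prime_iff_eq hp Nat.prime_two).1 this)
    · exact h4 h

/-- **Weak approximation for the admissible classes.** -/
theorem approx (hH : H.IsCohomology) (hK : H.HasK3) (S : Finset ℕ) (hS : ∀ p ∈ S, p.Prime)
    (u : ℕ → Fin 23 → ℤ) (hu : ∀ p ∈ S, H.IsHodge (u p) ∧ 0 < H.disc (u p) ∧
      AdmissibleAt p (H.disc (u p))) (m : ℕ) :
    ∃ w, H.IsHodge w ∧ H.Saturated w ∧ Admissible (H.disc w) ∧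
      ∀ p ∈ S, ∃ a b c : ℤ, ¬ (p : ℤ) ∣ c ∧ ∃ y : Fin 23 → ℤ, H.IsHodge y ∧
        c • u p = a • w + b • H.h + ((p : ℤ) ^ m) • y := by
  classical
  obtain ⟨hr, hloc⟩ := (hasK3_iff hH).1 hK
  rw [H.rank_eq] at hr
  obtain ⟨v, hv, h0, a, b, hab⟩ := exists_twisted hH hr fun p hp _ => hloc p hp
  let v0 : H.hodge := ⟨v, hv⟩
  have e0 : (hq hH).f v0 = nm a b := by
    rw [hq_f]
    show H.disc v / 2 = nm a b
    rw [hab]
    unfold nm
    omega
  have hne : (hq hH).f v0 ≠ 0 := by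
    rw [hq_f]
    show H.disc v / 2 ≠ 0
    omega
  have htf : ∀ (n : ℤ) (x : H.hodge), n ≠ 0 → n • x = 0 → x = 0 := by
    intro n x hn hx
    exact (smul_eq_zero.1 hx).resolve_left hn
  obtain ⟨U, hU⟩ : ∃ U : ℕ → H.hodge, ∀ p ∈ S, ((U p : H.hodge) : Fin 23 → ℤ) = u p := by
    refine ⟨fun p => if h : p ∈ S then (⟨u p, (hu p h).1⟩ : H.hodge) else v0, fun p hp => ?_⟩
    simp only [dif_pos hp]
  obtain ⟨w, hw0, hw1, hw2⟩ := core2 htf (hq hH) e0 hne (by
    intro p hp h3 hd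
    obtain ⟨x, hx, hadm⟩ := hloc p hp
    exact ⟨⟨x, hx⟩, good_of_adm hH hp h3 hadm⟩) S hS U (by
    intro p hp
    rw [hq_f, hU p hp]
    have h1 := (hu p hp).2.1
    have h2 := disc_half hH (u p)
    omega) (by
    intro p hp h3
    rw [hq_f, hU p hp]
    exact good_of_adm hH (hS p hp) h3 (hu p hp).2.2) (m + 1) (Nat.succ_pos m)
  have hwpos : 0 < H.disc (w : Fin 23 → ℤ) := by
    rw [hq_f] at hw0
    have := disc_half hH (w : Fin 23 → ℤ)
    omega
  obtain ⟨w', k, l, g1, g2, g3, g4⟩ := adm_of_good hH w.2 hwpos hw1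
  refine ⟨w', g1, g2, g3, fun p hp => ?_⟩
  obtain ⟨c, hc, y, hy⟩ := hw2 p hp
  refine ⟨k, l, c, hc, -((p : ℤ) • (y : Fin 23 → ℤ)), H.isHodge_neg (H.isHodge_smul _ y.2), ?_⟩
  have h1 : (w : Fin 23 → ℤ) = c • u p + ((p : ℤ) ^ (m + 1)) • (y : Fin 23 → ℤ) := by
    rw [hy]
    push_cast
    rw [hU p hp]
  rw [← g4, h1, pow_succ]
  module

/-- the bilinear form of the discriminants -/
def bf (H : H4 X) (v w : Fin 23 → ℤ) : ℤ := 3 * H.ip v w - H.ip H.h v * H.ip H.h w

theorem bf_lin (a b c : ℤ) (v x y z : Fin 23 → ℤ) :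
    bf H (a • x + b • y + c • z) v = a * bf H x v + b * bf H y v + c * bf H z v := by
  unfold bf
  simp only [ip_add_left, ip_add_right, ip_smul_left, ip_smul_right]
  ring

theorem bf_h (hH : H.IsCohomology) (v : Fin 23 → ℤ) : bf H H.h v = 0 := by
  unfold bf
  rw [hH.h_self]
  ring

theorem bf_smul (n : ℤ) (v w : Fin 23 → ℤ) : bf H (n • v) w = n * bf H v w := by
  unfold bf
  simp only [ip_smul_left, ip_smul_right]
  ring

theorem bf_add (u v w : Fin 23 → ℤ) : bf H (u + v) w = bf H u w + bf H v w := by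
  unfold bf
  simp only [ip_add_left, ip_add_right]
  ring

/-- Cauchy-Schwarz -/
theorem bf_sq (hH : H.IsCohomology) {v w : Fin 23 → ℤ} (hv : H.IsHodge v) (hw : H.IsHodge w) :
    bf H v w ^ 2 ≤ H.disc v * H.disc w := by
  have key : ∀ s t : ℤ, 0 ≤ s ^ 2 * H.disc v + 2 * s * t * bf H v w + t ^ 2 * H.disc w := by
    intro s t
    have h1 := disc_nonneg hH (H.isHodge_add (H.isHodge_smul s hv) (H.isHodge_smul t hw))
    have h2 : H.disc (s • v + t • w) = s ^ 2 * H.disc v + 2 * s * t * bf H v w +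
        t ^ 2 * H.disc w := by
      unfold bf
      simp only [disc, ip_add_left, ip_add_right, ip_smul_left, ip_smul_right, hH.comm w v]
      ring
    rwa [h2] at h1
  have h1 := key (bf H v w) (-H.disc v)
  have h2 := key (-H.disc w) (bf H v w)
  have h3 := disc_nonneg hH hv
  have h4 := disc_nonneg hH hw
  by_contra hcon
  push Not at hcon
  have e1 : 0 ≤ H.disc v * (H.disc v * H.disc w - bf H v w ^ 2) := by nlinarith
  have e2 : 0 ≤ H.disc w * (H.disc v * H.disc w - bf H v w ^ 2) := by nlinarith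
  have e3 : H.disc v = 0 := by
    by_contra h
    have : 0 < H.disc v := lt_of_le_of_ne h3 (Ne.symm h)
    have := nonneg_of_mul_nonneg_right e1 this
    omega
  have e4 : H.disc w = 0 := by
    by_contra h
    have : 0 < H.disc w := lt_of_le_of_ne h4 (Ne.symm h)
    have := nonneg_of_mul_nonneg_right e2 this
    omega
  have h5 := key 1 (-bf H v w)
  rw [e3, e4] at h5
  rw [e3, e4] at hcon
  nlinarith

/-- **Unbounded degrees.** -/
theorem unbounded (hH : H.IsCohomology) (hK : H.HasK3) (hr : 3 ≤ H.rank) (D : ℤ) :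
    ∃ w, H.IsHodge w ∧ H.Saturated w ∧ Admissible (H.disc w) ∧ D < H.disc w := by
  rw [H.rank_eq] at hr
  by_contra hcon
  push Not at hcon
  -- two orthogonal primitive classes
  obtain ⟨w1, hw1, ho1⟩ := exists_orth (H := H) (k := 1) (by omega) ![H.h]
  obtain ⟨w2, hw2, ho2⟩ := exists_orth (H := H) (k := 2) (by omega) ![H.h, (w1 : Fin 23 → ℤ)]
  have h1h : H.ip (w1 : Fin 23 → ℤ) H.h = 0 := ho1 0
  have h2h : H.ip (w2 : Fin 23 → ℤ) H.h = 0 := ho2 0
  have h21 : H.ip (w2 : Fin 23 → ℤ) w1 = 0 := ho2 1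
  have h1h' : H.ip H.h (w1 : Fin 23 → ℤ) = 0 := by rw [hH.comm]; exact h1h
  have h2h' : H.ip H.h (w2 : Fin 23 → ℤ) = 0 := by rw [hH.comm]; exact h2h
  have h12 : H.ip (w1 : Fin 23 → ℤ) w2 = 0 := by rw [hH.comm]; exact h21
  obtain ⟨f1, hf1⟩ : ∃ f1, f1 = H.disc (w1 : Fin 23 → ℤ) := ⟨_, rfl⟩
  obtain ⟨f2, hf2⟩ : ∃ f2, f2 = H.disc (w2 : Fin 23 → ℤ) := ⟨_, rfl⟩
  have p1 : 0 < f1 := by
    rw [hf1, disc_prim hH h1h]
    have := hH.pos _ w1.2 fun h => hw1 (Subtype.ext h)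
    omega
  have p2 : 0 < f2 := by
    rw [hf2, disc_prim hH h2h]
    have := hH.pos _ w2.2 fun h => hw2 (Subtype.ext h)
    omega
  have b11 : bf H (w1 : Fin 23 → ℤ) w1 = f1 := by
    rw [hf1]; unfold bf disc; ring
  have b22 : bf H (w2 : Fin 23 → ℤ) w2 = f2 := by
    rw [hf2]; unfold bf disc; ring
  have b12 : bf H (w1 : Fin 23 → ℤ) w2 = 0 := by
    unfold bf; rw [h12, h1h', zero_mul]; rfl
  have b21 : bf H (w2 : Fin 23 → ℤ) w1 = 0 := by
    unfold bf; rw [h21, h2h', zero_mul]; rfl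
  -- the parameters
  obtain ⟨M, hM⟩ : ∃ M : ℤ, M = (|D| + 1) * (f1 + f2) := ⟨_, rfl⟩
  have hD0 : 0 ≤ |D| := abs_nonneg D
  have hM0 : 0 < M := by rw [hM]; positivity
  obtain ⟨Y, hY⟩ : ∃ Y : ℤ, Y = M * f1 + 1 := ⟨_, rfl⟩
  have hY0 : 0 < Y := by rw [hY]; positivity
  obtain ⟨q, hq, hqgt, hq3⟩ := Nat.exists_prime_gt_modEq_one (k := 3)
    ((M * f2 * Y + M * f1 + f1).toNat) (by norm_num)
  have hq3' : q % 3 = 1 := hq3
  have hqq := Nat.prime_iff_prime_int.1 hq
  have hqgt' : M * f2 * Y + M * f1 + f1 < (q : ℤ) := by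
    have : (M * f2 * Y + M * f1 + f1).toNat < q := hqgt
    omega
  obtain ⟨u, hu⟩ : ∃ u : Fin 23 → ℤ, u = (w1 : Fin 23 → ℤ) + Y • (w2 : Fin 23 → ℤ) := ⟨_, rfl⟩
  have huH : H.IsHodge u := by
    rw [hu]
    exact H.isHodge_add w1.2 (H.isHodge_smul _ w2.2)
  have bu1 : bf H u w1 = f1 := by
    rw [hu, bf_add, bf_smul, b11, b21]
    ring
  have bu2 : bf H u w2 = Y * f2 := by
    rw [hu, bf_add, bf_smul, b12, b22]
    ring
  have hud : 0 < H.disc u := by
    have h1 := bf_sq hH huH w1.2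
    rw [bu1, ← hf1] at h1
    have h2 : 0 < f1 ^ 2 := by positivity
    have h3 : 0 < H.disc u * f1 := lt_of_lt_of_le h2 h1
    exact pos_of_mul_pos_left h3 p1.le
  obtain ⟨w, g1, g2, g3, g4⟩ := approx hH hK {q} (by
    intro p hp
    rw [mem_singleton] at hp
    rw [hp]
    exact hq) (fun _ => u) (by
    intro p hp
    rw [mem_singleton] at hp
    subst hp
    refine ⟨huH, hud, ?_, ?_, ?_⟩
    · rintro rfl
      norm_num at hq3'
    · rintro rfl
      norm_num at hq3'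
    · intro _ h
      omega) 1
  obtain ⟨a, b, c, hc, y, -, hy⟩ := g4 q (mem_singleton_self q)
  have hle := hcon w g1 g2 g3
  rw [pow_one] at hy
  have e1 : c * f1 = a * bf H w w1 + q * bf H y w1 := by
    have h1 : bf H (c • u) w1 = bf H (a • w + b • H.h + (q : ℤ) • y) w1 := by rw [hy]
    rw [bf_smul, bu1, bf_lin, bf_h hH] at h1
    rw [h1]
    ring
  have e2 : c * (Y * f2) = a * bf H w w2 + q * bf H y w2 := by
    have h1 : bf H (c • u) w2 = bf H (a • w + b • H.h + (q : ℤ) • y) w2 := by rw [hy]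
    rw [bf_smul, bu2, bf_lin, bf_h hH] at h1
    rw [h1]
    ring
  obtain ⟨β1, hβ1⟩ : ∃ β1, β1 = bf H w w1 := ⟨_, rfl⟩
  obtain ⟨β2, hβ2⟩ : ∃ β2, β2 = bf H w w2 := ⟨_, rfl⟩
  have s1 : β1 ^ 2 ≤ M ^ 2 := by
    have h1 := bf_sq hH g1 w1.2
    rw [← hβ1, ← hf1] at h1
    have h2 : H.disc w * f1 ≤ |D| * f1 := by
      have := le_abs_self D
      nlinarith
    have h3 : |D| * f1 ≤ M := by rw [hM]; nlinarith
    nlinarith
  have s2 : β2 ^ 2 ≤ M ^ 2 := by
    have h1 := bf_sq hH g1 w2.2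
    rw [← hβ2, ← hf2] at h1
    have h2 : H.disc w * f2 ≤ |D| * f2 := by
      have := le_abs_self D
      nlinarith
    have h3 : |D| * f2 ≤ M := by rw [hM]; nlinarith
    nlinarith
  have t1 := abs_le_of_sq_le_sq' s1 hM0.le
  have t2 := abs_le_of_sq_le_sq' s2 hM0.le
  rw [← hβ1] at e1
  rw [← hβ2] at e2
  have hqf1 : ¬ (q : ℤ) ∣ f1 := by
    intro h
    have := Int.le_of_dvd p1 h
    have : 0 < M * f2 * Y + M * f1 := by positivity
    omega
  have hcf : ¬ (q : ℤ) ∣ c * f1 := by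
    intro h
    rcases hqq.dvd_or_dvd h with h | h
    · exact hc h
    · exact hqf1 h
  have ha : ¬ (q : ℤ) ∣ a := by
    intro h
    apply hcf
    rw [e1]
    exact dvd_add (h.mul_right _) (dvd_mul_right _ _)
  have hb1 : β1 ≠ 0 := by
    intro h
    apply hcf
    rw [e1, h, mul_zero, zero_add]
    exact dvd_mul_right _ _
  have hdvd : (q : ℤ) ∣ β1 * (Y * f2) - β2 * f1 := by
    have h1 : (q : ℤ) ∣ a * (β1 * (Y * f2) - β2 * f1) := by
      refine ⟨-bf H y w1 * (Y * f2) + bf H y w2 * f1, ?_⟩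
      linear_combination -(Y * f2) * e1 + f1 * e2
    exact (hqq.dvd_or_dvd h1).resolve_left ha
  obtain ⟨k, hk⟩ := hdvd
  have hYf : M * f1 < Y * f2 := by rw [hY]; nlinarith
  have hbig : β1 * (Y * f2) - β2 * f1 ≠ 0 := by
    intro h
    rcases lt_or_gt_of_ne hb1 with h1 | h1
    · have : β1 ≤ -1 := by omega
      nlinarith [t2.1, t2.2]
    · have : 1 ≤ β1 := by omega
      nlinarith [t2.1, t2.2]
  have hup : |β1 * (Y * f2) - β2 * f1| < q := by
    rw [abs_lt]
    have hYf0 : 0 < Y * f2 := by positivity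
    constructor
    · nlinarith [t1.1, t1.2, t2.1, t2.2]
    · nlinarith [t1.1, t1.2, t2.1, t2.2]
  have hk0 : k ≠ 0 := by
    rintro rfl
    rw [mul_zero] at hk
    exact hbig hk
  rw [hk, abs_mul] at hup
  have h5 : (1 : ℤ) ≤ |k| := Int.one_le_abs hk0
  have h6 : |(q : ℤ)| = q := abs_of_nonneg (by positivity)
  rw [h6] at hup
  nlinarith [hq.pos]

/-- In rank two there is at most one degree. -/
theorem unique_degree (hH : H.IsCohomology) (hr : H.rank = 2) {v w : Fin 23 → ℤ}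
    (hv : H.IsHodge v) (hw : H.IsHodge w) (hvs : H.Saturated v) (hws : H.Saturated w)
    (hv0 : 0 < H.disc v) (hw0 : 0 < H.disc w) : H.disc v = H.disc w := by
  rw [H.rank_eq] at hr
  have key : ∀ {v w : Fin 23 → ℤ}, H.IsHodge v → H.IsHodge w → H.Saturated v →
      0 < H.disc v → ∃ b : ℤ, H.disc w = b ^ 2 * H.disc v := by
    intro v w hv hw hvs hv0
    have hh0 : H.h ≠ 0 := by
      intro h
      have := hH.h_self
      rw [h, ip_zero_left] at this
      norm_num at this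
    let z0 : H.hodge := ⟨H.h, hH.h_hodge⟩
    have hz0 : z0 ≠ 0 := fun h => hh0 (congrArg Subtype.val h)
    have hu : H.IsHodge ((3 : ℤ) • v - H.ip H.h v • H.h) :=
      H.isHodge_sub (H.isHodge_smul _ hv) (H.isHodge_smul _ hH.h_hodge)
    have h3 : H.ip ((3 : ℤ) • v - H.ip H.h v • H.h) ((3 : ℤ) • v - H.ip H.h v • H.h) =
        3 * H.disc v := by
      simp only [disc, ip_sub_left, ip_sub_right, ip_smul_left, ip_smul_right, hH.h_self,
        hH.comm v H.h]
      ring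
    have h4 : H.ip ((3 : ℤ) • v - H.ip H.h v • H.h) H.h = 0 := by
      simp only [ip_sub_left, ip_smul_left, hH.h_self, hH.comm v H.h]
      ring
    let z1 : H.hodge := ⟨_, hu⟩
    have hz1 : z1 ≠ 0 := by
      intro h
      have h5 : (3 : ℤ) • v - H.ip H.h v • H.h = 0 := congrArg Subtype.val h
      rw [h5, ip_zero_left] at h3
      omega
    obtain ⟨m, c, hm, hc⟩ := dep hH (k := 2) (w := ![z0, z1]) (by
      intro i
      fin_cases i
      · exact hz0
      · exact hz1) (by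
      intro i j hij
      fin_cases i <;> fin_cases j
      · exact absurd rfl hij
      · show H.ip H.h _ = 0
        rw [hH.comm]
        exact h4
      · exact h4
      · exact absurd rfl hij) hr.symm ⟨w, hw⟩
    have hc' : m • w = (c 0 - c 1 * H.ip H.h v) • H.h + (3 * c 1) • v := by
      have h5 : m • w = c 0 • H.h + c 1 • ((3 : ℤ) • v - H.ip H.h v • H.h) := by
        rw [Fin.sum_univ_two] at hc
        exact hc
      rw [h5]
      module
    obtain ⟨a', b', hab⟩ := hvs w m _ _ hm hc'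
    refine ⟨b', ?_⟩
    rw [hab, add_comm]
    exact hH.disc_comb _ _ _
  obtain ⟨b, hb⟩ := key hv hw hvs hv0
  obtain ⟨c, hc⟩ := key hw hv hws hw0
  have hb0 : b ≠ 0 := by
    rintro rfl
    norm_num at hb
    omega
  have hc0 : c ≠ 0 := by
    rintro rfl
    norm_num at hc
    omega
  have hb1 : 1 ≤ b ^ 2 := by
    have : 0 < b ^ 2 := by positivity
    omega
  have hc1 : 1 ≤ c ^ 2 := by
    have : 0 < c ^ 2 := by positivity
    omega
  apply le_antisymm
  · rw [hb]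
    nlinarith
  · conv_rhs => rw [hc]
    nlinarith

end Pool.Agent.U141.CF
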