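import Pool.Agent.N801.CF.Core

/-!
# Weak approximation in the local-global principle for isotropic vectors

The theorem `core` of `Pool.Agent.N801.CF.Core` with congruences at finitely many primes; its proof
is adapted.
-/

set_option autoImplicit false

namespace Pool.Agent.U141.CF

open Finset Pool.Agent.N801.CF

/-- **Local representations at the split primes.** -/
theorem local_rep1 {p : ℕ} (hp : p.Prime) (h1 : p % 3 = 1) (n : ℤ) (L : ℕ) :
    ∃ a b : ℤ, (p : ℤ) ^ L ∣ nm a b - n := by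
  have hpp := Nat.prime_iff_prime_int.1 hp
  have : Fact p.Prime := ⟨hp⟩
  have hf3 : Fact (Nat.Prime 3) := ⟨Nat.prime_three⟩
  obtain ⟨g, hg⟩ := exists_prime_orderOf_dvd_card (G := (ZMod p)ˣ) 3 (by
    rw [ZMod.card_units p]
    have := hp.one_lt
    omega)
  have hg3 : (g : ZMod p) ^ 3 = 1 := by
    have h2 := pow_orderOf_eq_one g
    rw [hg] at h2
    have h3 := congrArg Units.val h2
    rwa [Units.val_pow_eq_pow_val, Units.val_one] at h3
  have hg1 : (g : ZMod p) ≠ 1 := by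
    intro h
    have : g = 1 := Units.ext h
    rw [this, orderOf_one] at hg
    omega
  obtain ⟨ω, hω⟩ : ∃ ω : ZMod p, ω = (g : ZMod p) := ⟨_, rfl⟩
  rw [← hω] at hg3 hg1
  have hw : ω ^ 2 + ω + 1 = 0 := by
    have : (ω - 1) * (ω ^ 2 + ω + 1) = 0 := by linear_combination hg3
    exact (mul_eq_zero.1 this).resolve_left (sub_ne_zero.2 hg1)
  have h3' : (3 : ZMod p) ≠ 0 := by
    intro h
    have : ((3 : ℕ) : ZMod p) = 0 := by exact_mod_cast h
    rw [ZMod.natCast_eq_zero_iff] at this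
    have := (Nat.prime_dvd_prime_iff_eq hp Nat.prime_three).1 this
    omega
  have hδ : -1 - 2 * ω ≠ 0 := by
    intro h
    apply h3'
    have : (-1 - 2 * ω) ^ 2 = -3 := by linear_combination 4 * hw
    rw [h] at this
    linear_combination this
  obtain ⟨b, hb⟩ := ZMod.intCast_surjective (((n : ZMod p) - 1) / (-1 - 2 * ω))
  obtain ⟨a, ha⟩ := ZMod.intCast_surjective (1 + (-1 - ω) * (((n : ZMod p) - 1) / (-1 - 2 * ω)))
  have hbδ : (b : ZMod p) * (-1 - 2 * ω) = n - 1 := by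
    rw [hb]
    exact div_mul_cancel₀ _ hδ
  have haω : (a : ZMod p) = 1 + (-1 - ω) * b := by rw [ha, hb]
  have hab : (p : ℤ) ∣ nm a b - n := by
    rw [← ZMod.intCast_zmod_eq_zero_iff_dvd]
    unfold nm
    push_cast
    have e : ((a : ZMod p) - ω * b) * (a - (-1 - ω) * b) = n := by
      have e1 : (a : ZMod p) - (-1 - ω) * b = 1 := by rw [haω]; ring
      rw [e1, haω]
      linear_combination hbδ
    linear_combination e + (b : ZMod p) ^ 2 * hw
  refine lift_all hp hab ?_ L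
  by_contra hcon
  push Not at hcon
  obtain ⟨c1, c2⟩ := hcon
  have d1 : (p : ℤ) ∣ 2 * a + b := by
    by_contra h
    exact c1 ((Prime.coprime_iff_not_dvd hpp).2 h).symm
  have d2 : (p : ℤ) ∣ a + 2 * b := by
    by_contra h
    exact c2 ((Prime.coprime_iff_not_dvd hpp).2 h).symm
  have e1 : (2 * (a : ZMod p) + b) = 0 := by
    have := (ZMod.intCast_zmod_eq_zero_iff_dvd (2 * a + b) p).2 d1
    exact_mod_cast this
  have e2 : ((a : ZMod p) + 2 * b) = 0 := by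
    have := (ZMod.intCast_zmod_eq_zero_iff_dvd (a + 2 * b) p).2 d2
    exact_mod_cast this
  have e3 : (3 : ZMod p) * a = 0 := by linear_combination 2 * e1 - e2
  have e4 : (3 : ZMod p) * b = 0 := by linear_combination 2 * e2 - e1
  have ha0 := (mul_eq_zero.1 e3).resolve_left h3'
  have hb0 := (mul_eq_zero.1 e4).resolve_left h3'
  rw [ha0, hb0, mul_zero, add_zero] at haω
  exact zero_ne_one haω

/-- **The local-global principle with weak approximation.** -/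
theorem core2 {M : Type*} [AddCommGroup M] (htf : ∀ (n : ℤ) (x : M), n ≠ 0 → n • x = 0 → x = 0)
    (Q : QF M) {v0 : M} {a0 b0 : ℤ}
    (h0 : Q.f v0 = nm a0 b0) (hne : Q.f v0 ≠ 0)
    (hloc : ∀ p : ℕ, p.Prime → p % 3 ≠ 1 → (p : ℤ) ∣ Q.f v0 → ∃ v, Good p (Q.f v))
    (E : Finset ℕ) (hE : ∀ p ∈ E, p.Prime) (U : ℕ → M) (hU : ∀ p ∈ E, Q.f (U p) ≠ 0)
    (hUg : ∀ p ∈ E, p % 3 ≠ 1 → Good p (Q.f (U p))) (m : ℕ) (hm : 1 ≤ m) :
    ∃ v, 0 < Q.f v ∧ (∀ p : ℕ, p.Prime → p % 3 ≠ 1 → Good p (Q.f v)) ∧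
      ∀ p ∈ E, ∃ c : ℤ, ¬ (p : ℤ) ∣ c ∧ ∃ y, v = c • U p + ((p : ℤ) ^ m) • y := by
  classical
  have hab : ¬ (a0 = 0 ∧ b0 = 0) := by
    rintro ⟨rfl, rfl⟩
    rw [h0] at hne
    exact hne rfl
  -- the bad primes
  obtain ⟨S0, hS0⟩ : ∃ S0 : Finset ℕ, S0 = (6 * (Q.f v0).natAbs).primeFactors.filter
    fun p => p % 3 ≠ 1 := ⟨_, rfl⟩
  obtain ⟨S, hSdef⟩ : ∃ S : Finset ℕ, S = S0 ∪ E := ⟨_, rfl⟩
  have h6ne : 6 * (Q.f v0).natAbs ≠ 0 := by
    have := Int.natAbs_ne_zero.2 hne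
    omega
  have hSp : ∀ p ∈ S, p.Prime := fun p hp => by
    rw [hSdef, mem_union] at hp
    rcases hp with hp | hp
    · rw [hS0] at hp
      exact Nat.prime_of_mem_primeFactors (mem_filter.1 hp).1
    · exact hE p hp
  have hS' : ∀ p : ℕ, p.Prime → p % 3 ≠ 1 → p ∉ S → ¬ p ∣ 6 * (Q.f v0).natAbs := by
    intro p hp h3 hpS hd
    apply hpS
    rw [hSdef, mem_union, hS0]
    exact Or.inl (mem_filter.2 ⟨Nat.mem_primeFactors.2 ⟨hp, hd, h6ne⟩, h3⟩)
  have hgne : ∀ {p : ℕ}, p.Prime → ∀ {n : ℤ}, Good p n → n ≠ 0 := by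
    rintro p hp n hn rfl
    by_cases h3 : p = 3
    · rcases hn.1 h3 with h | h <;> norm_num at h
    · exact hn.2 h3 (dvd_zero _)
  have hgood : ∀ p ∈ S, ∃ v, Q.f v ≠ 0 ∧ (p % 3 ≠ 1 → Good p (Q.f v)) ∧ (p ∈ E → v = U p) := by
    intro p hp
    by_cases hpE : p ∈ E
    · exact ⟨U p, hU p hpE, hUg p hpE, fun _ => rfl⟩
    have hp0 : p ∈ S0 := by
      rw [hSdef, mem_union] at hp
      exact hp.resolve_right hpE
    have h3 : p % 3 ≠ 1 := by
      rw [hS0] at hp0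
      exact (mem_filter.1 hp0).2
    by_cases hd : (p : ℤ) ∣ Q.f v0
    · obtain ⟨v, hv⟩ := hloc p (hSp p hp) h3 hd
      exact ⟨v, hgne (hSp p hp) hv, fun _ => hv, fun h => absurd h hpE⟩
    · have hg : Good p (Q.f v0) := by
        refine ⟨fun h3 => ?_, fun _ => hd⟩
        subst h3
        left
        rw [h0] at hd ⊢
        unfold nm at hd ⊢
        push_cast at hd
        have ha : a0 % 3 = 0 ∨ a0 % 3 = 1 ∨ a0 % 3 = 2 := by omega
        have hb : b0 % 3 = 0 ∨ b0 % 3 = 1 ∨ b0 % 3 = 2 := by omega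
        have e : (a0 ^ 2 + a0 * b0 + b0 ^ 2) % 3 =
            ((a0 % 3) ^ 2 + (a0 % 3) * (b0 % 3) + (b0 % 3) ^ 2) % 3 := by
          simp [Int.add_emod, Int.mul_emod, pow_two]
        rcases ha with ha | ha | ha <;> rcases hb with hb | hb | hb <;>
          rw [ha, hb] at e <;> norm_num at e <;> omega
      exact ⟨v0, hne, fun _ => hg, fun h => absurd h hpE⟩
  choose! V hV0 hVg hVE using hgood
  -- a nonzero number
  obtain ⟨τ, hτ0, hτ⟩ : ∃ τ : ℕ → ℤ, (∀ p ∈ S, τ p ≠ 0) ∧ ∀ p, τ p = 3 * a0 * Q.f (V p) ∨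
      τ p = 3 * b0 * Q.f (V p) := by
    by_cases ha : a0 = 0
    · have hb : b0 ≠ 0 := fun hb => hab ⟨ha, hb⟩
      exact ⟨fun p => 3 * b0 * Q.f (V p), fun p hp =>
        mul_ne_zero (mul_ne_zero (by norm_num) hb) (hV0 p hp), fun p => Or.inr rfl⟩
    · exact ⟨fun p => 3 * a0 * Q.f (V p), fun p hp =>
        mul_ne_zero (mul_ne_zero (by norm_num) ha) (hV0 p hp), fun p => Or.inl rfl⟩
  -- exponents
  obtain ⟨K, hK⟩ : ∃ K : ℕ, ∀ p ∈ S, ¬ (p : ℤ) ^ K ∣ τ p := by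
    refine ⟨∑ p ∈ S, (τ p).natAbs, fun p hp hd => ?_⟩
    have h1 := Int.natAbs_dvd_natAbs.2 hd
    rw [Int.natAbs_pow, Int.natAbs_natCast] at h1
    have h2 := Nat.le_of_dvd (Int.natAbs_pos.2 (hτ0 p hp)) h1
    have h3 : (τ p).natAbs ≤ ∑ q ∈ S, (τ q).natAbs :=
      single_le_sum (f := fun q => (τ q).natAbs) (fun _ _ => Nat.zero_le _) hp
    have h4 : (τ p).natAbs < p ^ (∑ q ∈ S, (τ q).natAbs) :=
      lt_of_le_of_lt h3 (Nat.lt_pow_self (hSp p hp).one_lt)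
    omega
  obtain ⟨L, hL⟩ : ∃ L, L = K + m + 2 := ⟨_, rfl⟩
  -- local solutions
  have hsol : ∀ p ∈ S, ∃ a b : ℤ, (p : ℤ) ^ L ∣ nm a b - Q.f (V p) ∧
      ¬ (p : ℤ) ^ K ∣ Q.b v0 (V p) - tr a0 b0 a b := by
    intro p hp
    obtain ⟨a', b', h1⟩ : ∃ a b : ℤ, (p : ℤ) ^ L ∣ nm a b - Q.f (V p) := by
      by_cases h3 : p % 3 = 1
      · exact local_rep1 (hSp p hp) h3 _ L
      · exact local_rep (hSp p hp) h3 (hVg p hp h3) L
    refine rotate (k := K) ?_ (by omega) h1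
    rcases hτ p with h | h
    · left
      rw [← h]
      exact hK p hp
    · right
      rw [← h]
      exact hK p hp
  choose! A B hAB using hsol
  obtain ⟨β, hβ⟩ : ∃ β : ℕ → ℤ, ∀ p, β p = Q.b v0 (V p) - tr a0 b0 (A p) (B p) :=
    ⟨_, fun _ => rfl⟩
  -- simultaneous approximation
  obtain ⟨x1, hx1⟩ := crt S hSp L fun p => v0 - V p
  obtain ⟨c1, hc1⟩ := crt S hSp L fun p => a0 - A p
  obtain ⟨d1, hd1⟩ := crt S hSp L fun p => b0 - B p
  obtain ⟨P, hP⟩ : ∃ P : ℤ, P = ∏ p ∈ S, (p : ℤ) ^ L := ⟨_, rfl⟩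
  have hP0 : P ≠ 0 := by
    rw [hP]
    exact prod_ne_zero_iff.2 fun p hp => pow_ne_zero _ (by
      exact_mod_cast (hSp p hp).ne_zero)
  have hPS : ∀ p ∈ S, (p : ℤ) ^ L ∣ P := fun p hp => by
    rw [hP]
    exact dvd_prod_of_mem _ hp
  have hPn : ∀ p : ℕ, p.Prime → p ∉ S → ¬ (p : ℤ) ∣ P := by
    intro p hp hpS hd
    have hpp := Nat.prime_iff_prime_int.1 hp
    rw [hP] at hd
    obtain ⟨q, hq, hdq⟩ := (Prime.dvd_finsetProd_iff hpp _).1 hd
    have h1 := hpp.dvd_of_dvd_pow hdq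
    have h2 : p ∣ q := by exact_mod_cast h1
    rw [(Nat.prime_dvd_prime_iff_eq hp (hSp q hq)).1 h2] at hpS
    exact hpS hq
  -- the functional
  obtain ⟨g, hg0, s1, s2, hs, hgf⟩ : ∃ g : ℤ, g ≠ 0 ∧ ∃ s1 s2 : ℤ, b0 * s1 - a0 * s2 = g ∧
      g ∣ nm a0 b0 := by
    have hg : (Int.gcd b0 a0 : ℤ) ≠ 0 := by
      have : Int.gcd b0 a0 ≠ 0 := fun h => hab
        ⟨Int.eq_zero_of_gcd_eq_zero_right h, Int.eq_zero_of_gcd_eq_zero_left h⟩
      exact_mod_cast this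
    refine ⟨(Int.gcd b0 a0 : ℤ), hg, Int.gcdA b0 a0, -Int.gcdB b0 a0, ?_, ?_⟩
    · have hb := Int.gcd_eq_gcd_ab b0 a0
      rw [hb]
      ring
    · unfold nm
      have e1 : (Int.gcd b0 a0 : ℤ) ∣ a0 := Int.gcd_dvd_right _ _
      have e2 : (Int.gcd b0 a0 : ℤ) ∣ b0 := Int.gcd_dvd_left _ _
      exact dvd_add (dvd_add (e1.pow two_ne_zero) (e1.mul_right _)) (e2.pow two_ne_zero)
  obtain ⟨j1, hj1ne, hj1⟩ := dir (b0 * c1 - a0 * d1) (P * g) (mul_ne_zero hP0 hg0)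
  obtain ⟨c, hc⟩ : ∃ c, c = c1 + P * (j1 * s1) := ⟨_, rfl⟩
  obtain ⟨d, hd⟩ : ∃ d, d = d1 + P * (j1 * s2) := ⟨_, rfl⟩
  have hlam : b0 * c - a0 * d = b0 * c1 - a0 * d1 + P * g * j1 := by
    rw [hc, hd, ← hs]
    ring
  obtain ⟨j2, hj2ne, hj2⟩ := dir (Q.b x1 v0 - tr c d a0 b0) (P * (2 * Q.f v0))
    (mul_ne_zero hP0 (mul_ne_zero two_ne_zero hne))
  obtain ⟨x, hx⟩ : ∃ x, x = x1 + (P * j2) • v0 := ⟨_, rfl⟩
  obtain ⟨Be, hBe⟩ : ∃ Be, Be = Q.b x v0 - tr c d a0 b0 := ⟨_, rfl⟩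
  have hBe' : Be = Q.b x1 v0 - tr c d a0 b0 + P * (2 * Q.f v0) * j2 := by
    rw [hBe, hx, Q.b_add, Q.b_smul, Q.b_self]
    ring
  obtain ⟨Fu, hFu⟩ : ∃ Fu, Fu = Q.f x - nm c d := ⟨_, rfl⟩
  -- the new isotropic vector
  obtain ⟨v', hv'⟩ : ∃ v', v' = Fu • v0 + (-Be) • x := ⟨_, rfl⟩
  obtain ⟨a', ha'⟩ : ∃ a', a' = Fu * a0 - Be * c := ⟨_, rfl⟩
  obtain ⟨b', hb'⟩ : ∃ b', b' = Fu * b0 - Be * d := ⟨_, rfl⟩
  have hiso : Q.f v' = nm a' b' := by
    rw [hv', Q.f_lin, h0, ha', hb']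
    have e1 : Q.b v0 x = Be + tr c d a0 b0 := by rw [Q.b_comm, hBe]; ring
    have e2 : Q.f x = Fu + nm c d := by rw [hFu]; ring
    rw [e1, e2]
    unfold nm tr
    ring
  have hlam' : b0 * a' - a0 * b' = -Be * (b0 * c - a0 * d) := by
    rw [ha', hb']
    ring
  have hBe0 : Be ≠ 0 := by rw [hBe']; exact hj2ne
  have hlam0 : b0 * c - a0 * d ≠ 0 := by rw [hlam]; exact hj1ne
  have hab' : ¬ (a' = 0 ∧ b' = 0) := by
    rintro ⟨h1, h2⟩
    rw [h1, h2, mul_zero, mul_zero, sub_zero] at hlam'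
    exact mul_ne_zero (neg_ne_zero.2 hBe0) hlam0 hlam'.symm
  have hpos' : 0 < Q.f v' := by rw [hiso]; exact nm_pos hab'
  -- primes outside `S`
  have hout : ∀ p : ℕ, p.Prime → p % 3 ≠ 1 → p ∉ S → ¬ (p : ℤ) ∣ Q.f v' := by
    intro p hp h3 hpS hdv
    have h6 := hS' p hp h3 hpS
    have hp3 : p % 3 = 2 := by
      have : p % 3 ≠ 0 := by
        intro h
        have h' : 3 ∣ p := Nat.dvd_of_mod_eq_zero h
        have h'' := (Nat.prime_dvd_prime_iff_eq Nat.prime_three hp).1 h'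
        apply h6
        rw [← h'']
        exact Dvd.dvd.mul_right (by norm_num) _
      omega
    rw [hiso] at hdv
    obtain ⟨h1, h2⟩ := inert hp hp3 hdv
    have h4 : (p : ℤ) ∣ -Be * (b0 * c - a0 * d) := by
      rw [← hlam']
      exact dvd_sub (h1.mul_left _) (h2.mul_left _)
    have hpp := Nat.prime_iff_prime_int.1 hp
    have hpf : ¬ (p : ℤ) ∣ Q.f v0 := by
      intro h
      apply h6
      have := Int.natAbs_dvd_natAbs.2 h
      rw [Int.natAbs_natCast] at this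
      exact this.mul_left _
    have hp2 : ¬ (p : ℤ) ∣ 2 := by
      intro h
      have h' : p ∣ 2 := by exact_mod_cast h
      exact h6 ((h'.trans (by norm_num)).mul_right _)
    have hpP := hPn p hp hpS
    rcases hpp.dvd_or_dvd h4 with h5 | h5
    · have h7 : (p : ℤ) ∣ Be := (dvd_neg).1 h5
      rw [hBe'] at h7
      have h8 := hj2 p hp h3 h7
      rcases hpp.dvd_or_dvd h8 with h9 | h9
      · exact hpP h9
      · rcases hpp.dvd_or_dvd h9 with h9 | h9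
        · exact hp2 h9
        · exact hpf h9
    · rw [hlam] at h5
      have h8 := hj1 p hp h3 h5
      rcases hpp.dvd_or_dvd h8 with h9 | h9
      · exact hpP h9
      · apply hpf
        rw [h0]
        exact h9.trans hgf
  -- primes in `S`
  have hin : ∀ p ∈ S, ∃ k : ℕ, (∃ (e : ℤ) (y : M), ¬ (p : ℤ) ∣ e ∧
      v' = ((p : ℤ) ^ k) • (e • V p + ((p : ℤ) ^ m) • y)) ∧
      (p % 3 ≠ 1 → ∃ n : ℤ, Q.f v' = ((p : ℤ) ^ k) ^ 2 * n ∧ Good p n) := by
    intro p hp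
    have hpr := hSp p hp
    have hpp := Nat.prime_iff_prime_int.1 hpr
    obtain ⟨h1, h2⟩ := hAB p hp
    -- the valuation of `β p`
    obtain ⟨k, β', hk, hβ', hkK⟩ : ∃ (k : ℕ) (β' : ℤ), β p = (p : ℤ) ^ k * β' ∧
        ¬ (p : ℤ) ∣ β' ∧ k ≤ K := by
      have hβ0 : β p ≠ 0 := by
        intro h
        apply h2
        rw [← hβ p, h]
        exact dvd_zero _
      have hfin : FiniteMultiplicity (p : ℤ) (β p) :=
        Int.finiteMultiplicity_iff.2 ⟨by simpa using hpr.ne_one, hβ0⟩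
      obtain ⟨β', e1, e2⟩ := hfin.exists_eq_pow_mul_and_not_dvd
      refine ⟨multiplicity (p : ℤ) (β p), β', e1, e2, ?_⟩
      by_contra hcon
      push Not at hcon
      apply h2
      rw [← hβ p, e1]
      exact (pow_dvd_pow _ hcon.le).mul_right _
    have hkL : k + m + 2 ≤ L := by omega
    -- congruences for `x`, `c`, `d`
    obtain ⟨X, hX⟩ : ∃ X : M, x = v0 - V p + ((p : ℤ) ^ L) • X := by
      obtain ⟨z, hz⟩ := hx1 p hp
      obtain ⟨y, hy⟩ := hPS p hp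
      refine ⟨z + (y * j2) • v0, ?_⟩
      rw [hx, hz, hy, smul_add, smul_smul, mul_assoc]
      abel
    obtain ⟨C, hC⟩ : ∃ C : ℤ, c = a0 - A p + (p : ℤ) ^ L * C := by
      obtain ⟨z, hz⟩ := hc1 p hp
      obtain ⟨y, hy⟩ := hPS p hp
      refine ⟨z + y * (j1 * s1), ?_⟩
      rw [hc, hz, hy, smul_eq_mul]
      ring
    obtain ⟨D, hD⟩ : ∃ D : ℤ, d = b0 - B p + (p : ℤ) ^ L * D := by
      obtain ⟨z, hz⟩ := hd1 p hp
      obtain ⟨y, hy⟩ := hPS p hp
      refine ⟨z + y * (j1 * s2), ?_⟩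
      rw [hd, hz, hy, smul_eq_mul]
      ring
    obtain ⟨N, hN⟩ := h1
    -- congruences for `Be` and `Fu`
    have eb : β p = Q.b v0 (V p) - tr a0 b0 (A p) (B p) := hβ p
    have hsub : v0 - V p = v0 + (-1 : ℤ) • V p := by rw [neg_one_smul]; abel
    obtain ⟨E1, hE1⟩ : ∃ E1 : ℤ, Be = -β p + (p : ℤ) ^ L * E1 := by
      refine ⟨Q.b X v0 - tr C D a0 b0, ?_⟩
      rw [hBe, hX, hC, hD, hsub, Q.b_add, Q.b_add, Q.b_smul, Q.b_smul, Q.b_self, h0, eb,
        Q.b_comm (V p) v0]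
      unfold nm tr
      ring
    obtain ⟨E2, hE2⟩ : ∃ E2 : ℤ, Fu = -β p + (p : ℤ) ^ L * E2 := by
      refine ⟨-N + Q.b (v0 - V p) X + (p : ℤ) ^ L * Q.f X
        - tr (a0 - A p) (b0 - B p) C D - (p : ℤ) ^ L * nm C D, ?_⟩
      have e1 : Q.f x = Q.f (v0 - V p) + (p : ℤ) ^ L * Q.b (v0 - V p) X
          + ((p : ℤ) ^ L) ^ 2 * Q.f X := by
        rw [hX, Q.f_add, Q.f_smul, Q.b_smul']
        ring
      have e2 : Q.f (v0 - V p) = Q.f v0 + Q.f (V p) - Q.b v0 (V p) := by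
        rw [hsub, Q.f_add, Q.f_smul, Q.b_smul']
        ring
      rw [hFu, e1, e2, hC, hD, h0, eb]
      unfold nm tr at *
      linear_combination -hN
    -- the vector
    have hpLk : (p : ℤ) ^ L = (p : ℤ) ^ k * (p : ℤ) ^ (L - k) := by
      rw [← pow_add]
      congr 1
      omega
    have hv : v' = ((p : ℤ) ^ k) • ((-β') • V p + ((p : ℤ) ^ (L - k)) •
        (E2 • v0 + (β p) • X - E1 • x)) := by
      have e1 : v' = (-β p) • V p + ((p : ℤ) ^ L) • (E2 • v0 + (β p) • X - E1 • x) := by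
        have e3 : v' = Fu • v0 - Be • x := by rw [hv', neg_smul]; abel
        have e4 : Be • x = (-β p) • (v0 - V p + ((p : ℤ) ^ L) • X) + ((p : ℤ) ^ L * E1) • x := by
          rw [hE1, add_smul, ← hX]
        rw [e3, e4, hE2]
        module
      rw [e1, hk, hpLk]
      module
    have haa : a' = (p : ℤ) ^ k * (-β' * A p + (p : ℤ) ^ (L - k) *
        (E2 * a0 + β p * C - E1 * c)) := by
      have e1 : a' = -β p * A p + (p : ℤ) ^ L * (E2 * a0 + β p * C - E1 * c) := by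
        have e4 : Be * c = -β p * (a0 - A p + (p : ℤ) ^ L * C) + (p : ℤ) ^ L * E1 * c := by
          rw [hE1, add_mul, ← hC]
        rw [ha', e4, hE2]
        ring
      rw [e1, hpLk]
      linear_combination (-A p) * hk
    have hbb : b' = (p : ℤ) ^ k * (-β' * B p + (p : ℤ) ^ (L - k) *
        (E2 * b0 + β p * D - E1 * d)) := by
      have e1 : b' = -β p * B p + (p : ℤ) ^ L * (E2 * b0 + β p * D - E1 * d) := by
        have e4 : Be * d = -β p * (b0 - B p + (p : ℤ) ^ L * D) + (p : ℤ) ^ L * E1 * d := by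
          rw [hE1, add_mul, ← hD]
        rw [hb', e4, hE2]
        ring
      rw [e1, hpLk]
      linear_combination (-B p) * hk
    have hLkm : (p : ℤ) ^ (L - k) = (p : ℤ) ^ m * (p : ℤ) ^ (L - k - m) := by
      rw [← pow_add]
      congr 1
      omega
    refine ⟨k, ⟨-β', ((p : ℤ) ^ (L - k - m)) • (E2 • v0 + (β p) • X - E1 • x), ?_, ?_⟩, ?_⟩
    · rwa [dvd_neg]
    · rw [smul_smul, ← hLkm]
      exact hv
    · intro h3
      refine ⟨nm (-β' * A p + (p : ℤ) ^ (L - k) * (E2 * a0 + β p * C - E1 * c))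
        (-β' * B p + (p : ℤ) ^ (L - k) * (E2 * b0 + β p * D - E1 * d)), ?_, ?_⟩
      · rw [hiso, haa, hbb]
        unfold nm
        ring
      · generalize (E2 * a0 + β p * C - E1 * c) = Y1
        generalize (E2 * b0 + β p * D - E1 * d) = Y2
        have h2L : (p : ℤ) ^ 2 ∣ (p : ℤ) ^ (L - k) := pow_dvd_pow _ (by omega)
        obtain ⟨r, hr⟩ := h2L
        have h2L' : (p : ℤ) ^ 2 ∣ (p : ℤ) ^ L := pow_dvd_pow _ (by omega)
        obtain ⟨r', hr'⟩ := h2L'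
        rw [hr]
        rw [hr'] at hN
        refine (hVg p hp h3).of_sq hpr (c := β') hβ' ?_
        have e1 : nm (-β' * A p + (p : ℤ) ^ 2 * r * Y1) (-β' * B p + (p : ℤ) ^ 2 * r * Y2) -
            β' ^ 2 * Q.f (V p) =
            (p : ℤ) ^ 2 * (β' ^ 2 * (r' * N)
            + -β' * tr (A p) (B p) (r * Y1) (r * Y2)
            + (p : ℤ) ^ 2 * nm (r * Y1) (r * Y2)) := by
          unfold nm tr at *
          linear_combination β' ^ 2 * hN
        rw [e1]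
        exact dvd_mul_right _ _
  choose! k hk1 hk2 using hin
  choose! ec yc hec hyc using hk1
  obtain ⟨v, hv⟩ := div_prod S hSp k v' fun p hp => ⟨_, hyc p hp⟩
  obtain ⟨R, hR⟩ : ∃ R : ℤ, R = ∏ p ∈ S, (p : ℤ) ^ k p := ⟨_, rfl⟩
  rw [← hR] at hv
  have hR0 : R ≠ 0 := by
    rw [hR]
    exact prod_ne_zero_iff.2 fun p hp => pow_ne_zero _ (by
      exact_mod_cast (hSp p hp).ne_zero)
  have hfv : Q.f v' = R ^ 2 * Q.f v := by
    conv_lhs => rw [hv]
    exact Q.f_smul _ _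
  have hRe : ∀ p ∈ S, ∃ R' : ℤ, R = (p : ℤ) ^ k p * R' ∧ ¬ (p : ℤ) ∣ R' := by
    intro p hpS
    refine ⟨∏ q ∈ S.erase p, (q : ℤ) ^ k q, ?_, ?_⟩
    · rw [hR]
      exact (mul_prod_erase S (fun q : ℕ => (q : ℤ) ^ k q) hpS).symm
    · intro hd
      have hpp := Nat.prime_iff_prime_int.1 (hSp p hpS)
      obtain ⟨q, hq, hdq⟩ := (Prime.dvd_finsetProd_iff hpp _).1 hd
      have h1 := hpp.dvd_of_dvd_pow hdq
      have h2 : p ∣ q := by exact_mod_cast h1
      exact ne_of_mem_erase hq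
        ((Nat.prime_dvd_prime_iff_eq (hSp p hpS) (hSp q (mem_of_mem_erase hq))).1 h2).symm
  refine ⟨v, ?_, ?_, ?_⟩
  · rw [hfv] at hpos'
    exact (mul_pos_iff_of_pos_left (by positivity)).1 hpos'
  · intro p hp h3
    by_cases hpS : p ∈ S
    · obtain ⟨n, hn1, hn2⟩ := hk2 p hpS h3
      obtain ⟨R', hRR, hR'⟩ := hRe p hpS
      have hpk : ((p : ℤ) ^ k p) ≠ 0 := pow_ne_zero _ (by exact_mod_cast hp.ne_zero)
      have h1 : n = R' ^ 2 * Q.f v := by
        apply mul_left_cancel₀ (pow_ne_zero 2 hpk)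
        rw [← hn1, hfv, hRR]
        ring
      rw [h1] at hn2
      exact hn2.of_mul hp
    · have h1 := hout p hp h3 hpS
      refine ⟨fun h => ?_, fun _ hdv => h1 ?_⟩
      · exfalso
        subst h
        exact hS' 3 hp h3 hpS (Dvd.dvd.mul_right (by norm_num) _)
      · rw [hfv]
        exact hdv.mul_left _
  · intro p hpE
    have hpS : p ∈ S := by rw [hSdef, mem_union]; exact Or.inr hpE
    have hpr := hSp p hpS
    have hpp := Nat.prime_iff_prime_int.1 hpr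
    obtain ⟨R', hRR, hR'⟩ := hRe p hpS
    have hpk : ((p : ℤ) ^ k p) ≠ 0 := pow_ne_zero _ (by exact_mod_cast hpr.ne_zero)
    have e1 : R' • v = ec p • U p + ((p : ℤ) ^ m) • yc p := by
      have e2 : ((p : ℤ) ^ k p) • (R' • v - (ec p • U p + ((p : ℤ) ^ m) • yc p)) = 0 := by
        rw [smul_sub, smul_smul, ← hRR, ← hv, ← hVE p hpS hpE, sub_eq_zero]
        exact hyc p hpS
      exact sub_eq_zero.1 (htf _ _ hpk e2)
    obtain ⟨s, t, hst⟩ : IsCoprime R' ((p : ℤ) ^ m) :=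
      (((Prime.coprime_iff_not_dvd hpp).2 hR').symm).pow_right
    refine ⟨s * ec p, ?_, s • yc p + t • v, ?_⟩
    · intro hd
      rcases hpp.dvd_or_dvd hd with h | h
      · have hpm : (p : ℤ) ∣ (p : ℤ) ^ m := dvd_pow_self _ (by omega)
        have h1 : (p : ℤ) ∣ 1 := by
          rw [← hst]
          exact dvd_add (h.mul_right _) (hpm.mul_left _)
        exact hpp.not_dvd_one h1
      · exact hec p hpS h
    · calc v = (s * R' + t * (p : ℤ) ^ m) • v := by rw [hst, one_smul]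
        _ = s • (R' • v) + (t * (p : ℤ) ^ m) • v := by rw [add_smul, smul_smul]
        _ = _ := by rw [e1]; module

end Pool.Agent.U141.CF
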